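import Pool.Agent.Helper76.CQ.Desc
import Pool.Agent.Helper76.CY.Fano

/-!
# CQ-D1: change of charts of the Grassmannian for points with values in a ring
-/

namespace Pool.Agent.Helper77.CQ

open MvPolynomial Pool.Agent.Helper76.CY Pool.Agent.Helper76.CQ

section aux

variable {T : Type*} [CommRing T]

private theorem bv_eq (i j : Fin 10) : bv T i j = if j = i then 1 else 0 := by
  unfold bv
  rw [Pi.single_apply]

/-- the rows in the first three columns -/
private theorem row_c3 (y : Idx → T) (i j : Fin 3) : row y i (c3 j) = if j = i then 1 else 0 := by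
  have h1 : ((c3 j : Fin 10) : ℕ) < 3 := j.2
  unfold row tv
  rw [Pi.add_apply, bv_eq, dif_pos h1, add_zero]
  have h2 : (c3 j = c3 i) ↔ j = i := by
    constructor
    · intro h
      have := congrArg Fin.val h
      exact Fin.ext this
    · rintro rfl; rfl
  simp only [h2]

/-- the rows in the last seven columns -/
private theorem row_ge (y : Idx → T) (i : Fin 3) (q : Fin 7) :
    row y i ⟨(q : ℕ) + 3, by omega⟩ = y (i, q) := by
  have h1 : ¬ (((⟨(q : ℕ) + 3, by omega⟩ : Fin 10) : ℕ) < 3) := by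
    simp
  unfold row tv
  rw [Pi.add_apply, bv_eq, dif_neg h1]
  have h2 : (⟨(q : ℕ) + 3, by omega⟩ : Fin 10) ≠ c3 i := by
    intro h
    have h3 := congrArg Fin.val h
    have h4 : ((c3 i : Fin 10) : ℕ) < 3 := i.2
    simp only at h3
    omega
  rw [if_neg h2, zero_add]
  congr 1

private theorem cases10 (j : Fin 10) :
    (∃ k : Fin 3, j = c3 k) ∨ ∃ q : Fin 7, j = ⟨(q : ℕ) + 3, by omega⟩ := by
  by_cases h : (j : ℕ) < 3
  · exact Or.inl ⟨⟨j, h⟩, Fin.ext rfl⟩
  · refine Or.inr ⟨⟨(j : ℕ) - 3, by omega⟩, Fin.ext ?_⟩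
    simp only
    omega

end aux

theorem row_chart {T : Type*} [CommRing T] (R : Fin 3 → Fin 10 → T) (h : IsUnit (blk R).det)
    (i : Fin 3) (j : Fin 10) : row (chart R) i j = ∑ l, (blk R)⁻¹ i l * R l j := by
  rcases cases10 j with ⟨k, rfl⟩ | ⟨q, rfl⟩
  · rw [row_c3]
    have h1 := congrFun (congrFun (Matrix.nonsing_inv_mul (blk R) h) i) k
    rw [Matrix.mul_apply, Matrix.one_apply] at h1
    have h2 : ∀ l, blk R l k = R l (c3 k) := fun l => rfl
    simp only [h2] at h1
    rw [h1]
    simp only [eq_comm]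
  · rw [row_ge]
    rfl

private theorem blk_mul {T : Type*} [CommRing T] (M : Matrix (Fin 3) (Fin 3) T) (y : Idx → T) :
    blk (fun i j => ∑ l, M i l * row y l j) = M := by
  funext i j
  change ∑ l, M i l * row y l (c3 j) = M i j
  simp only [row_c3, mul_ite, mul_one, mul_zero]
  rw [Finset.sum_ite_eq]
  simp

private theorem chart_mul {T : Type*} [CommRing T] (M : Matrix (Fin 3) (Fin 3) T)
    (hM : IsUnit M.det) (y : Idx → T) : chart (fun i j => ∑ l, M i l * row y l j) = y := by
  funext q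
  unfold chart
  rw [blk_mul]
  simp only [row_ge]
  have h1 : ∀ k, (∑ j, M⁻¹ q.1 j * ∑ l, M j l * y (l, k)) = y (q.1, k) := by
    intro k
    simp only [Finset.mul_sum]
    rw [Finset.sum_comm]
    have h2 : ∀ l, (∑ j, M⁻¹ q.1 j * (M j l * y (l, k))) = (M⁻¹ * M) q.1 l * y (l, k) := by
      intro l
      rw [Matrix.mul_apply, Finset.sum_mul]
      exact Finset.sum_congr rfl fun j _ => by ring
    simp only [h2]
    rw [Matrix.nonsing_inv_mul M hM]
    simp only [Matrix.one_apply, ite_mul, one_mul, zero_mul]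
    rw [Finset.sum_ite_eq]
    simp
  exact h1 q.2

/-- `(1 | chg g y) g⁻¹ = A⁻¹ (1 | y)` -/
private theorem move_chg {T : Type*} [CommRing T] (g : Matrix (Fin 10) (Fin 10) T)
    (hg : IsUnit g.det) (y : Idx → T) (h : IsUnit (dch g y)) :
    move g⁻¹ (chg g y) = fun i j => ∑ l, (blk (move g y))⁻¹ i l * row y l j := by
  funext i j
  change ∑ l, row (chart (move g y)) i l * g⁻¹ l j = _
  have h1 : ∀ l, row (chart (move g y)) i l = ∑ a, (blk (move g y))⁻¹ i a * move g y a l :=
    fun l => row_chart (move g y) h i l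
  simp only [h1, Finset.sum_mul]
  rw [Finset.sum_comm]
  refine Finset.sum_congr rfl fun a _ => ?_
  have h2 : ∀ l, (blk (move g y))⁻¹ i a * move g y a l * g⁻¹ l j =
      (blk (move g y))⁻¹ i a * ∑ b, row y a b * (g b l * g⁻¹ l j) := by
    intro l
    change (blk (move g y))⁻¹ i a * (∑ b, row y a b * g b l) * g⁻¹ l j = _
    rw [mul_assoc, Finset.sum_mul]
    congr 1
    exact Finset.sum_congr rfl fun b _ => by ring
  simp only [h2]
  rw [← Finset.mul_sum, Finset.sum_comm]
  congr 1
  have h3 : ∀ b, (∑ l, row y a b * (g b l * g⁻¹ l j)) = row y a b * (g * g⁻¹) b j := by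
    intro b
    rw [← Finset.mul_sum, Matrix.mul_apply]
  simp only [h3]
  rw [Matrix.mul_nonsing_inv g hg]
  simp only [Matrix.one_apply, mul_ite, mul_one, mul_zero]
  rw [Finset.sum_ite_eq']
  simp

theorem chg_inv {T : Type*} [CommRing T] (g : Matrix (Fin 10) (Fin 10) T) (hg : IsUnit g.det)
    (y : Idx → T) (h : IsUnit (dch g y)) : dch g⁻¹ (chg g y) * dch g y = 1 ∧
      chg g⁻¹ (chg g y) = y := by
  have h1 := move_chg g hg y h
  constructor
  · have h2 : dch g⁻¹ (chg g y) = ((blk (move g y))⁻¹).det := by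
      unfold dch
      rw [h1, blk_mul]
    rw [h2]
    unfold dch
    rw [← Matrix.det_mul, Matrix.nonsing_inv_mul _ h, Matrix.det_one]
  · have h3 : chg g⁻¹ (chg g y) = chart (move g⁻¹ (chg g y)) := rfl
    rw [h3, h1]
    refine chart_mul _ ?_ y
    exact Matrix.isUnit_nonsing_inv_det _ h

/-- the trilinear form in a frame -/
private theorem tri_frT {K T : Type*} [CommRing K] [CommRing T] [Algebra K T] (D : Ten K)
    (g : Matrix (Fin 10) (Fin 10) T) (x y z : Fin 10 → T) :
    tri (frT D g : Ten T) x y z =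
      tri D (∑ l, x l • g l) (∑ l, y l • g l) (∑ l, z l • g l) := by
  rw [tri_sum_left]
  unfold tri
  refine Finset.sum_congr rfl fun i _ => ?_
  have h1 := tri_smul_left (D := D) (x i) (g i) (∑ l, y l • g l) (∑ l, z l • g l)
  unfold tri at h1
  rw [h1]
  have h2 := tri_sum_mid D Finset.univ (fun l => y l • g l) (g i) (∑ l, z l • g l)
  unfold tri at h2
  rw [h2, Finset.mul_sum]
  refine Finset.sum_congr rfl fun j _ => ?_
  have h3 := tri_smul_mid (D := D) (y j) (g i) (g j) (∑ l, z l • g l)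
  unfold tri at h3
  rw [h3]
  have h4 := tri_sum_right D Finset.univ (fun l => z l • g l) (g i) (g j)
  unfold tri at h4
  rw [h4, Finset.mul_sum, Finset.mul_sum]
  refine Finset.sum_congr rfl fun k _ => ?_
  have h5 := tri_smul_right (D := D) (z k) (g i) (g j) (g k)
  unfold tri at h5
  rw [h5]
  change tri D (g i) (g j) (g k) * x i * y j * z k = x i * (y j * (z k * tri D (g i) (g j) (g k)))
  ring

private theorem move_sum {T : Type*} [CommRing T] (g : Matrix (Fin 10) (Fin 10) T) (y : Idx → T)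
    (i : Fin 3) : (∑ l, row y i l • g l) = move g y i := by
  funext j
  rw [Finset.sum_apply]
  rfl

private theorem tri_comb {K R : Type*} [CommRing K] [CommRing R] [Algebra K R] (D : Ten K)
    (w : Fin 3 → Fin 10 → R) (hw : ∀ i j k, tri D (w i) (w j) (w k) = 0)
    (M : Fin 3 → Fin 3 → R) (i j k : Fin 3) :
    tri D (∑ l, M i l • w l) (∑ l, M j l • w l) (∑ l, M k l • w l) = 0 := by
  simp only [Fin.sum_univ_three, tri_add_left, tri_add_mid, tri_add_right, tri_smul_left,
    tri_smul_mid, tri_smul_right, hw, mul_zero, add_zero]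

private theorem row_chart' {T : Type*} [CommRing T] (R : Fin 3 → Fin 10 → T)
    (h : IsUnit (blk R).det) (i : Fin 3) :
    row (chart R) i = ∑ l, (blk R)⁻¹ i l • R l := by
  funext j
  rw [row_chart R h i j, Finset.sum_apply]
  rfl

theorem pl_chg {K T : Type*} [CommRing K] [CommRing T] [Algebra K T] (D : Ten K)
    (g : Matrix (Fin 10) (Fin 10) T) (y : Idx → T) (h : IsUnit (dch g y))
    (hp : Pl (frT D g : Ten T) y) : Pl D (chg g y) := by
  intro i j k
  have h1 : ∀ i, row (chg g y) i = ∑ l, (blk (move g y))⁻¹ i l • move g y l :=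
    fun i => row_chart' (move g y) h i
  rw [h1, h1, h1]
  refine tri_comb D (move g y) (fun a b c => ?_) (fun a b => (blk (move g y))⁻¹ a b) i j k
  rw [← move_sum, ← move_sum, ← move_sum, ← tri_frT]
  exact hp a b c

theorem pl_chg_inv {K T : Type*} [CommRing K] [CommRing T] [Algebra K T] (D : Ten K)
    (g : Matrix (Fin 10) (Fin 10) T) (hg : IsUnit g.det) (z : Idx → T)
    (h : IsUnit (dch g⁻¹ z)) (hp : Pl D z) : Pl (frT D g : Ten T) (chg g⁻¹ z) := by
  intro i j k
  have h1 : ∀ i, row (chg g⁻¹ z) i = ∑ l, (blk (move g⁻¹ z))⁻¹ i l • move g⁻¹ z l :=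
    fun i => row_chart' (move g⁻¹ z) h i
  rw [h1, h1, h1]
  refine tri_comb (frT D g : Ten T) (move g⁻¹ z) (fun a b c => ?_)
    (fun a b => (blk (move g⁻¹ z))⁻¹ a b) i j k
  rw [tri_frT]
  have h2 : ∀ a, (∑ l, move g⁻¹ z a l • g l) = row z a := by
    intro a
    funext j
    rw [Finset.sum_apply]
    change ∑ l, (∑ b, row z a b * g⁻¹ b l) * g l j = row z a j
    simp only [Finset.sum_mul]
    rw [Finset.sum_comm]
    have h3 : ∀ b, (∑ l, row z a b * g⁻¹ b l * g l j) = row z a b * (g⁻¹ * g) b j := by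
      intro b
      rw [Matrix.mul_apply, Finset.mul_sum]
      exact Finset.sum_congr rfl fun l _ => by ring
    simp only [h3]
    rw [Matrix.nonsing_inv_mul g hg]
    simp only [Matrix.one_apply, mul_ite, mul_one, mul_zero]
    rw [Finset.sum_ite_eq']
    simp
  rw [h2, h2, h2]
  exact hp a b c

end Pool.Agent.Helper77.CQ
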